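import Pool.Agent.Y664.QH.AR0
import Pool.Agent.Y996.QH.Stm
import Pool.Agent.H160R2.SA.Arm

/-!
Crossing probabilities of half-annuli at the boundary (project QH, job AR)
-/

set_option autoImplicit false

namespace Pool.Agent.Y664.QH

open Finset H974 TH976 Pool.Agent.H160R2.CV Pool.Agent.H160R2.CV.Quad
open Pool.Agent.Y996.QH (S_AR)

lemma E_eq_pf {s b r : ℝ} (hs : 0 < s) (hr : 0 < r) (hb : r ≤ b) : E s b r = pf s r := by
  rcases le_total r s with h | h
  · rw [E_small hr h hb, pf_small hr h]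
  · rw [E_mid hr hs h hb, pf_mid h]

theorem ar : S_AR := by
  obtain ⟨K, hK⟩ := aq_cmp Pool.Agent.H160R2.SA.arSharp
  have hK1 : 1 ≤ K := (hK (0, 0) ⟨le_rfl, le_rfl⟩ 1 le_rfl).hk
  obtain ⟨d, hd, hd1, hbq⟩ : ∃ d : ℝ, 0 < d ∧ d ≤ 1 ∧ ∀ p : Vtx, InV p → ∀ r n : ℕ, 1 ≤ r →
      3 * r ≤ n → d * (aq p (3 * r) * bq p r n) ≤ aq p n :=
    ⟨H973.dlt ^ 4, pow_pos H973.dlt_pos 4, pow_le_one₀ H973.dlt_pos.le H973.dlt_le,
      fun p hp r n h1 h2 => bq_le hp h1 h2⟩
  obtain ⟨c, C, hc, hC, H⟩ := core hK1 hd hd1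
  refine ⟨c, C, hc, hC, ?_⟩
  intro x m n hx hn hmn hx1 hcase
  have hx1r : (n : ℝ) ≤ (x.1 : ℝ) := by exact_mod_cast hx1
  have hx10 : (0 : ℝ) ≤ x.1 := by exact_mod_cast hx.1
  have hx20 : (0 : ℝ) ≤ x.2 := by exact_mod_cast hx.2
  have hs : 1 ≤ min (x.1 : ℝ) x.2 + 1 := by
    have := le_min hx10 hx20
    linarith
  have e : bq x m n = Pr P (qb x n) (Cx x m n) :=
    le_antisymm (pr_Cx_ge (Finset.Subset.refl _)) (pr_Cx_le (qb_inQ _ _) x hmn)
  refine H (fun r => aq x r) (fun m => Pr P (qb x n) (Cx x m n)) (min (x.1 : ℝ) x.2 + 1) m n hs hn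
    hmn ?_ ?_ (Pr_le_one okP _ _) ?_ ?_ ?_
  · intro r hr hrn
    have hr0 : (0 : ℝ) < r := by exact_mod_cast hr
    have hrn' : (r : ℝ) ≤ n := by exact_mod_cast hrn
    have h1 := hK x hx r hr
    rw [E_eq_pf (by linarith) hr0 (by
      have := le_max_left (x.1 : ℝ) x.2
      linarith)] at h1
    exact ⟨h1.l, h1.r⟩
  · intro hm
    subst hm
    change Pr P (qb x n) (Cx x 0 n) = aq x n
    apply Pr_congr
    intro F _
    constructor
    · rintro ⟨u, v, _, h1, h2, h3⟩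
      have hu : u = x := by
        by_contra h
        have := sd_pos h
        omega
      subst hu
      exact ⟨v, h2, h3⟩
    · rintro ⟨v, h2, h3⟩
      exact ⟨x, v, hx, by rw [sd_self], h2, h3⟩
  · intro _
    change aq x n ≤ aq x m * Pr P (qb x n) (Cx x m n)
    rw [← e]
    exact aq_split hx hmn
  · intro hm h3
    change d * (aq x (3 * m) * Pr P (qb x n) (Cx x m n)) ≤ aq x n
    rw [← e]
    exact hbq x hx m n hm h3
  · rcases hcase with h | h
    · left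
      have h' : (x.2 : ℝ) ≤ 64 * ((m : ℝ) + 1) := by exact_mod_cast h
      have := min_le_right (x.1 : ℝ) x.2
      have hm0 : (0 : ℝ) ≤ m := Nat.cast_nonneg m
      linarith
    · right
      exact_mod_cast h

end Pool.Agent.Y664.QH
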