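import Mathlib

/-!
The profile of the one-arm probabilities far from the vertical side (project QH, job AR)
-/

set_option autoImplicit false

namespace Pool.Agent.Y664.QH

/-- the profile -/
noncomputable def pf (s r : ℝ) : ℝ := r ^ (-(1 / 3 : ℝ)) * (min r s) ^ (11 / 48 : ℝ)

lemma pf_pos {s r : ℝ} (hs : 0 < s) (hr : 0 < r) : 0 < pf s r := by
  unfold pf
  have : 0 < min r s := lt_min hr hs
  positivity

/-- rewriting -/
lemma pf_small {s r : ℝ} (hr : 0 < r) (h : r ≤ s) : pf s r = r ^ (-(5 / 48 : ℝ)) := by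
  unfold pf
  rw [min_eq_left h, ← Real.rpow_add hr]
  norm_num

lemma pf_mid {s r : ℝ} (h : s ≤ r) : pf s r = s ^ (11 / 48 : ℝ) * r ^ (-(1 / 3 : ℝ)) := by
  unfold pf
  rw [min_eq_right h, mul_comm]

lemma div_third {a b : ℝ} (ha : 0 < a) (hb : 0 < b) :
    (a / b) ^ (1 / 3 : ℝ) = b ^ (-(1 / 3 : ℝ)) / a ^ (-(1 / 3 : ℝ)) := by
  rw [Real.div_rpow ha.le hb.le, Real.rpow_neg ha.le, Real.rpow_neg hb.le]
  have := Real.rpow_pos_of_pos ha (1 / 3)
  have := Real.rpow_pos_of_pos hb (1 / 3)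
  field_simp

/-- lower bound of the ratio -/
lemma pf_ratio_ge {s a b : ℝ} (hs : 0 < s) (ha : 0 < a) (hab : a ≤ b) :
    (a / b) ^ (1 / 3 : ℝ) * pf s a ≤ pf s b := by
  have hb : 0 < b := ha.trans_le hab
  rw [div_third ha hb]
  unfold pf
  have h1 : (min a s) ^ (11 / 48 : ℝ) ≤ (min b s) ^ (11 / 48 : ℝ) :=
    Real.rpow_le_rpow (le_min ha.le hs.le) (min_le_min hab le_rfl) (by norm_num)
  have h2 := Real.rpow_pos_of_pos ha (-(1 / 3))
  have h3 := Real.rpow_pos_of_pos hb (-(1 / 3))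
  calc b ^ (-(1 / 3 : ℝ)) / a ^ (-(1 / 3 : ℝ)) * (a ^ (-(1 / 3 : ℝ)) * (min a s) ^ (11 / 48 : ℝ))
      = b ^ (-(1 / 3 : ℝ)) * (min a s) ^ (11 / 48 : ℝ) := by field_simp
    _ ≤ _ := mul_le_mul_of_nonneg_left h1 h3.le

/-- upper bound of the ratio -/
lemma pf_ratio_le {s a b A : ℝ} (hs : 0 < s) (ha : 0 < a) (hab : a ≤ b) (hA : 1 ≤ A)
    (hsa : s ≤ A * a) : pf s b ≤ A * ((a / b) ^ (1 / 3 : ℝ) * pf s a) := by
  have hb : 0 < b := ha.trans_le hab
  have hA0 : 0 < A := by linarith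
  rw [div_third ha hb]
  unfold pf
  have h0 : min b s ≤ A * min a s := by
    rw [mul_min_of_nonneg _ _ hA0.le]
    refine le_min ((min_le_right _ _).trans hsa) ((min_le_right _ _).trans ?_)
    nlinarith
  have h1 : (min b s) ^ (11 / 48 : ℝ) ≤ A * (min a s) ^ (11 / 48 : ℝ) := by
    calc (min b s) ^ (11 / 48 : ℝ) ≤ (A * min a s) ^ (11 / 48 : ℝ) :=
          Real.rpow_le_rpow (le_min hb.le hs.le) h0 (by norm_num)
      _ = A ^ (11 / 48 : ℝ) * (min a s) ^ (11 / 48 : ℝ) :=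
          Real.mul_rpow hA0.le (le_min ha.le hs.le)
      _ ≤ A * (min a s) ^ (11 / 48 : ℝ) := by
          refine mul_le_mul_of_nonneg_right ?_ (Real.rpow_nonneg (le_min ha.le hs.le) _)
          calc A ^ (11 / 48 : ℝ) ≤ A ^ (1 : ℝ) :=
                Real.rpow_le_rpow_of_exponent_le hA (by norm_num)
            _ = A := Real.rpow_one A
  have h2 := Real.rpow_pos_of_pos ha (-(1 / 3))
  have h3 := Real.rpow_pos_of_pos hb (-(1 / 3))
  calc b ^ (-(1 / 3 : ℝ)) * (min b s) ^ (11 / 48 : ℝ)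
      ≤ b ^ (-(1 / 3 : ℝ)) * (A * (min a s) ^ (11 / 48 : ℝ)) := mul_le_mul_of_nonneg_left h1 h3.le
    _ = _ := by field_simp

lemma third_scale {x y A : ℝ} (hx : 0 ≤ x) (hy : 0 ≤ y) (hA : 1 ≤ A) (h : x ≤ A * y) :
    x ^ (1 / 3 : ℝ) ≤ A * y ^ (1 / 3 : ℝ) := by
  have hA0 : 0 ≤ A := by linarith
  calc x ^ (1 / 3 : ℝ) ≤ (A * y) ^ (1 / 3 : ℝ) := Real.rpow_le_rpow hx h (by norm_num)
    _ = A ^ (1 / 3 : ℝ) * y ^ (1 / 3 : ℝ) := Real.mul_rpow hA0 hy
    _ ≤ A * y ^ (1 / 3 : ℝ) := by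
      refine mul_le_mul_of_nonneg_right ?_ (Real.rpow_nonneg hy _)
      calc A ^ (1 / 3 : ℝ) ≤ A ^ (1 : ℝ) :=
            Real.rpow_le_rpow_of_exponent_le hA (by norm_num)
        _ = A := Real.rpow_one A

/-- the abstract form of the statement -/
theorem core {K d : ℝ} (hK : 1 ≤ K) (hd : 0 < d) (hd1 : d ≤ 1) :
    ∃ c C : ℝ, 0 < c ∧ 0 < C ∧ ∀ (a Q : ℕ → ℝ) (s : ℝ) (m n : ℕ), 1 ≤ s → 1 ≤ n → m ≤ n →
      (∀ r : ℕ, 1 ≤ r → r ≤ n → a r ≤ K * pf s r ∧ pf s r ≤ K * a r) →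
      (m = 0 → Q m = a n) → Q m ≤ 1 → (1 ≤ m → a n ≤ a m * Q m) →
      (1 ≤ m → 3 * m ≤ n → d * (a (3 * m) * Q m) ≤ a n) →
      (s ≤ 65 * ((m : ℝ) + 1) ∨ (n : ℝ) ≤ 1000 * ((m : ℝ) + 1)) →
      c * (((m : ℝ) + 1) / n) ^ ((1 : ℝ) / 3) ≤ Q m ∧
        Q m ≤ C * (((m : ℝ) + 1) / n) ^ ((1 : ℝ) / 3) := by
  have hK0 : 0 < K := by linarith
  refine ⟨(K ^ 2)⁻¹ / 2, K ^ 2 * d⁻¹ * 1000, by positivity, by positivity, ?_⟩
  intro a Q s m n hs hn hmn ha h0 hQ1 hlow hup hcase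
  have hn0 : (0 : ℝ) < n := by exact_mod_cast hn
  have hs0 : 0 < s := by linarith
  have hm0 : (0 : ℝ) ≤ m := Nat.cast_nonneg m
  have hx0 : 0 < (((m : ℝ) + 1) / n) := by positivity
  have hX := Real.rpow_pos_of_pos hx0 (1 / 3)
  obtain ⟨an1, an2⟩ := ha n hn le_rfl
  have pfn := pf_pos hs0 hn0
  have hpos : 0 < a n := by
    by_contra h
    have := mul_nonpos_of_nonneg_of_nonpos hK0.le (not_lt.1 h)
    linarith
  constructor
  · -- lower bound
    rcases Nat.eq_zero_or_pos m with hm | hm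
    · rw [h0 hm, hm]
      have h1 : ((1 : ℝ) / n) ^ (1 / 3 : ℝ) ≤ pf s n := by
        have h2 := pf_ratio_ge hs0 zero_lt_one (show (1 : ℝ) ≤ n by exact_mod_cast hn)
        have h3 : pf s 1 = 1 := by
          rw [pf_small one_pos hs, Real.one_rpow]
        rwa [h3, mul_one] at h2
      rw [Nat.cast_zero, zero_add]
      have h4 : 0 < ((1 : ℝ) / n) ^ (1 / 3 : ℝ) := Real.rpow_pos_of_pos (by positivity) _
      have h5 : (K ^ 2)⁻¹ / 2 ≤ K⁻¹ := by
        rw [div_le_iff₀ two_pos]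
        rw [inv_le_iff_one_le_mul₀ (by positivity)]
        have : K⁻¹ * 2 * K ^ 2 = 2 * K := by field_simp
        rw [this]; linarith
      calc (K ^ 2)⁻¹ / 2 * ((1 : ℝ) / n) ^ (1 / 3 : ℝ) ≤ K⁻¹ * ((1 : ℝ) / n) ^ (1 / 3 : ℝ) :=
            mul_le_mul_of_nonneg_right h5 h4.le
        _ ≤ K⁻¹ * pf s n := mul_le_mul_of_nonneg_left h1 (by positivity)
        _ ≤ K⁻¹ * (K * a n) := mul_le_mul_of_nonneg_left an2 (by positivity)
        _ = a n := by field_simp
    · obtain ⟨am1, am2⟩ := ha m hm hmn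
      have hmr : (1 : ℝ) ≤ m := by exact_mod_cast hm
      have hmnr : (m : ℝ) ≤ n := by exact_mod_cast hmn
      have h1 := pf_ratio_ge hs0 (show (0 : ℝ) < m by linarith) hmnr
      have h2 := hlow hm
      have pfm := pf_pos hs0 (show (0 : ℝ) < m by linarith)
      have h3 : (((m : ℝ) + 1) / n) ^ (1 / 3 : ℝ) ≤ 2 * ((m : ℝ) / n) ^ (1 / 3 : ℝ) := by
        refine third_scale hx0.le (by positivity) (by norm_num) ?_
        rw [← mul_div_assoc]
        exact div_le_div_of_nonneg_right (by linarith) hn0.le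
      have hQ0 : 0 ≤ Q m := by
        by_contra hneg
        push Not at hneg
        have ham : 0 < a m := by
          by_contra h
          have := mul_nonpos_of_nonneg_of_nonpos hK0.le (not_lt.1 h)
          linarith
        have := mul_neg_of_pos_of_neg ham hneg
        linarith
      -- Q m ≥ a n / a m ≥ K⁻² pf n / pf m
      have h4 : pf s n ≤ K ^ 2 * (pf s m * Q m) := by
        calc pf s n ≤ K * a n := an2
          _ ≤ K * (a m * Q m) := mul_le_mul_of_nonneg_left h2 hK0.le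
          _ ≤ K * ((K * pf s m) * Q m) :=
              mul_le_mul_of_nonneg_left (mul_le_mul_of_nonneg_right am1 hQ0) hK0.le
          _ = _ := by ring
      have h5 : ((m : ℝ) / n) ^ (1 / 3 : ℝ) ≤ K ^ 2 * Q m := by
        have h6 : ((m : ℝ) / n) ^ (1 / 3 : ℝ) * pf s m ≤ (K ^ 2 * Q m) * pf s m := by
          calc _ ≤ pf s n := h1
            _ ≤ _ := h4
            _ = _ := by ring
        exact le_of_mul_le_mul_right h6 pfm
      rw [div_mul_eq_mul_div, div_le_iff₀ two_pos, inv_mul_le_iff₀ (by positivity)]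
      calc (((m : ℝ) + 1) / n) ^ (1 / 3 : ℝ) ≤ 2 * ((m : ℝ) / n) ^ (1 / 3 : ℝ) := h3
        _ ≤ 2 * (K ^ 2 * Q m) := by linarith
        _ = _ := by ring
  · -- upper bound
    have hd' : 1 ≤ d⁻¹ := (one_le_inv₀ hd).2 hd1
    have hK2 : 1 ≤ K ^ 2 := one_le_pow₀ hK
    have hKd : 1 ≤ K ^ 2 * d⁻¹ := by nlinarith
    rcases le_or_gt (n : ℝ) (1000 * ((m : ℝ) + 1)) with hc | hc
    · have h1 : (1 : ℝ) ^ (1 / 3 : ℝ) ≤ 1000 * (((m : ℝ) + 1) / n) ^ (1 / 3 : ℝ) := by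
        refine third_scale zero_le_one hx0.le (by norm_num) ?_
        rw [← mul_div_assoc, le_div_iff₀ hn0]
        linarith
      rw [Real.one_rpow] at h1
      calc Q m ≤ 1 := hQ1
        _ ≤ 1000 * (((m : ℝ) + 1) / n) ^ (1 / 3 : ℝ) := h1
        _ = 1 * (1000 * (((m : ℝ) + 1) / n) ^ (1 / 3 : ℝ)) := (one_mul _).symm
        _ ≤ (K ^ 2 * d⁻¹) * (1000 * (((m : ℝ) + 1) / n) ^ (1 / 3 : ℝ)) :=
            mul_le_mul_of_nonneg_right hKd (by positivity)
        _ = _ := by ring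
    · have hs65 : s ≤ 65 * ((m : ℝ) + 1) := hcase.resolve_right (not_le.2 hc)
      rcases Nat.eq_zero_or_pos m with hm | hm
      · rw [h0 hm]
        rw [hm] at hs65 ⊢
        rw [Nat.cast_zero, zero_add, mul_one] at hs65
        rw [Nat.cast_zero, zero_add]
        have h2 := pf_ratio_le hs0 zero_lt_one (show (1 : ℝ) ≤ n by exact_mod_cast hn)
          (show (1 : ℝ) ≤ 65 by norm_num) (by linarith)
        have h3 : pf s 1 = 1 := by
          rw [pf_small one_pos hs, Real.one_rpow]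
        rw [h3, mul_one] at h2
        have h4 : 0 < ((1 : ℝ) / n) ^ (1 / 3 : ℝ) := Real.rpow_pos_of_pos (by positivity) _
        calc a n ≤ K * pf s n := an1
          _ ≤ K * (65 * ((1 : ℝ) / n) ^ (1 / 3 : ℝ)) := mul_le_mul_of_nonneg_left h2 hK0.le
          _ ≤ (K ^ 2 * d⁻¹) * (1000 * ((1 : ℝ) / n) ^ (1 / 3 : ℝ)) := by
              refine mul_le_mul ?_ ?_ (by positivity) (by positivity)
              · nlinarith
              · nlinarith
          _ = _ := by ring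
      · have hmr : (1 : ℝ) ≤ m := by exact_mod_cast hm
        have h3m : 3 * m ≤ n := by
          have h6 : (3 * m : ℝ) ≤ n := by linarith
          exact_mod_cast h6
        obtain ⟨b1, b2⟩ := ha (3 * m) (by omega) h3m
        have h7 := hup hm h3m
        have hcast : ((3 * m : ℕ) : ℝ) = 3 * m := by push_cast; ring
        rw [hcast] at b1 b2
        have h3m' : (0 : ℝ) < 3 * m := by linarith
        have pf3 := pf_pos hs0 h3m'
        have h8 := pf_ratio_le hs0 h3m' (show (3 * m : ℝ) ≤ n by linarith)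
          (show (1 : ℝ) ≤ 44 by norm_num) (by linarith)
        have h9 : ((3 * m : ℝ) / n) ^ (1 / 3 : ℝ) ≤ 3 * (((m : ℝ) + 1) / n) ^ (1 / 3 : ℝ) := by
          refine third_scale (by positivity) hx0.le (by norm_num) ?_
          rw [← mul_div_assoc]
          exact div_le_div_of_nonneg_right (by linarith) hn0.le
        rcases le_or_gt (Q m) 0 with hq | hq
        · exact hq.trans (by positivity)
        · have h10 : Q m * pf s (3 * m) ≤
              (K ^ 2 * d⁻¹ * 1000 * (((m : ℝ) + 1) / n) ^ (1 / 3 : ℝ)) * pf s (3 * m) := by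
            calc Q m * pf s (3 * m) ≤ Q m * (K * a (3 * m)) :=
                  mul_le_mul_of_nonneg_left b2 hq.le
              _ = K * d⁻¹ * (d * (a (3 * m) * Q m)) := by field_simp
              _ ≤ K * d⁻¹ * a n := mul_le_mul_of_nonneg_left h7 (by positivity)
              _ ≤ K * d⁻¹ * (K * pf s n) := mul_le_mul_of_nonneg_left an1 (by positivity)
              _ ≤ K * d⁻¹ * (K * (44 * (((3 * m : ℝ) / n) ^ (1 / 3 : ℝ) * pf s (3 * m)))) :=
                  mul_le_mul_of_nonneg_left (mul_le_mul_of_nonneg_left h8 hK0.le) (by positivity)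
              _ ≤ K * d⁻¹ * (K * (44 * ((3 * (((m : ℝ) + 1) / n) ^ (1 / 3 : ℝ)) *
                    pf s (3 * m)))) := by gcongr
              _ = (K ^ 2 * d⁻¹ * 132 * (((m : ℝ) + 1) / n) ^ (1 / 3 : ℝ)) * pf s (3 * m) := by ring
              _ ≤ _ := by gcongr; norm_num
          exact le_of_mul_le_mul_right h10 pf3

end Pool.Agent.Y664.QH
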